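import Pool.Agent.Helper7.EC_E.GoalsM

/-! Packet MA of MP_ecc237 Part E (helper7): `ζ(4) = 4 ζ(3,1)`. -/

set_option autoImplicit false

open MeasureTheory Filter Topology Set

namespace EC237.ZE.PkMA

/-- `1/(n+1)^2` -/
noncomputable def f (n : ℕ) : ℝ := 1 / ((n:ℝ) + 1) ^ 2

theorem f_nonneg (n : ℕ) : 0 ≤ f n := by
  unfold f
  positivity

theorem summable_f : Summable f := by
  have := (summable_nat_add_iff 1).2 (Real.summable_one_div_nat_pow.2 (one_lt_two))
  refine this.congr (fun n => ?_)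
  unfold f
  push_cast
  rfl

theorem summable_ff : Summable (fun p : ℕ × ℕ => f p.1 * f p.2) :=
  summable_f.mul_of_nonneg summable_f f_nonneg f_nonneg

theorem Hs2_eq (n : ℕ) : Hs 2 n = ∑ m ∈ Finset.range n, f m := rfl

theorem Hs1_nonneg (n : ℕ) : 0 ≤ Hs 1 n := by
  unfold Hs
  positivity

theorem Hs1_le (n : ℕ) : Hs 1 n ≤ n := by
  unfold Hs
  calc ∑ m ∈ Finset.range n, 1 / ((m:ℝ) + 1) ^ 1 ≤ ∑ m ∈ Finset.range n, (1:ℝ) := by
        refine Finset.sum_le_sum (fun m _ => ?_)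
        rw [pow_one, div_le_one (by positivity)]
        have : (0:ℝ) ≤ m := Nat.cast_nonneg m
        linarith
    _ = n := by simp

theorem summable_31 : Summable (fun n : ℕ => Hs 1 n / ((n:ℝ) + 1) ^ 3) := by
  refine Summable.of_nonneg_of_le (fun n => div_nonneg (Hs1_nonneg n) (by positivity)) ?_
    summable_f
  intro n
  unfold f
  have h := Hs1_le n
  have hn : (0:ℝ) < (n:ℝ) + 1 := by positivity
  rw [div_le_div_iff₀ (by positivity) (by positivity)]
  have : Hs 1 n ≤ (n:ℝ) + 1 := by linarith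
  calc Hs 1 n * ((n:ℝ) + 1) ^ 2 ≤ ((n:ℝ) + 1) * ((n:ℝ) + 1) ^ 2 :=
        mul_le_mul_of_nonneg_right this (by positivity)
    _ = 1 * ((n:ℝ) + 1) ^ 3 := by ring

theorem Hs2_le (n : ℕ) : Hs 2 n ≤ ∑' n, f n := by
  rw [Hs2_eq]
  exact summable_f.sum_le_tsum _ (fun i _ => f_nonneg i)

theorem Hs2_nonneg (n : ℕ) : 0 ≤ Hs 2 n := by
  unfold Hs
  positivity

theorem summable_22 : Summable (fun n : ℕ => f n * Hs 2 n) := by
  refine Summable.of_nonneg_of_le (fun n => mul_nonneg (f_nonneg n) (Hs2_nonneg n)) ?_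
    (summable_f.mul_right (∑' n, f n))
  intro n
  exact mul_le_mul_of_nonneg_left (Hs2_le n) (f_nonneg n)

/-- the sum over `p.2 < p.1` -/
theorem low : HasSum (fun p : ℕ × ℕ => if p.2 < p.1 then f p.1 * f p.2 else 0)
    (∑' n, f n * Hs 2 n) := by
  have hs : Summable (fun p : ℕ × ℕ => if p.2 < p.1 then f p.1 * f p.2 else 0) := by
    refine Summable.of_nonneg_of_le (fun p => ?_) (fun p => ?_) summable_ff
    · split_ifs
      · exact mul_nonneg (f_nonneg _) (f_nonneg _)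
      · exact le_rfl
    · split_ifs
      · exact le_rfl
      · exact mul_nonneg (f_nonneg _) (f_nonneg _)
  have h1 : ∀ n : ℕ, HasSum (fun m : ℕ => if m < n then f n * f m else 0) (f n * Hs 2 n) := by
    intro n
    have : HasSum (fun m : ℕ => if m < n then f n * f m else 0)
        (∑ b ∈ Finset.range n, (if b < n then f n * f b else 0)) :=
      hasSum_sum_of_ne_finset_zero (fun m hm => if_neg (by simpa using hm))
    have e : ∑ b ∈ Finset.range n, (if b < n then f n * f b else 0) = f n * Hs 2 n := by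
      rw [Hs2_eq, Finset.mul_sum]
      exact Finset.sum_congr rfl (fun b hb => if_pos (Finset.mem_range.1 hb))
    rwa [e] at this
  have h2 := hs.hasSum.prod_fiberwise h1
  rw [h2.tsum_eq]
  exact hs.hasSum

theorem diag : HasSum (fun p : ℕ × ℕ => if p.1 = p.2 then f p.1 * f p.2 else 0) z4 := by
  have hs : Summable (fun p : ℕ × ℕ => if p.1 = p.2 then f p.1 * f p.2 else 0) := by
    refine Summable.of_nonneg_of_le (fun p => ?_) (fun p => ?_) summable_ff
    · split_ifs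
      · exact mul_nonneg (f_nonneg _) (f_nonneg _)
      · exact le_rfl
    · split_ifs
      · exact le_rfl
      · exact mul_nonneg (f_nonneg _) (f_nonneg _)
  have h1 : ∀ n : ℕ, HasSum (fun m : ℕ => if n = m then f n * f m else 0)
      (1 / ((n:ℝ) + 1) ^ 4) := by
    intro n
    have := hasSum_single (f := fun m : ℕ => if n = m then f n * f m else 0) n
      (fun m hm => if_neg (fun h => hm h.symm))
    have e : (if n = n then f n * f n else 0) = 1 / ((n:ℝ) + 1) ^ 4 := by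
      rw [if_pos rfl]
      unfold f
      rw [div_mul_div_comm, one_mul, ← pow_add]
    rwa [e] at this
  have h2 := hs.hasSum.prod_fiberwise h1
  unfold z4
  rw [h2.tsum_eq]
  exact hs.hasSum

theorem stuffle : HasSum (fun p : ℕ × ℕ => f p.1 * f p.2) (2 * (∑' n, f n * Hs 2 n) + z4) := by
  have h1 := low
  have h2 : HasSum (fun p : ℕ × ℕ => if p.1 < p.2 then f p.1 * f p.2 else 0)
      (∑' n, f n * Hs 2 n) := by
    have := (Equiv.prodComm ℕ ℕ).hasSum_iff.2 low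
    refine this.congr_fun ?_
    intro p
    simp only [Function.comp, Equiv.prodComm_apply, Prod.fst_swap, Prod.snd_swap]
    rw [mul_comm]
  have h3 := (h1.add h2).add diag
  have e : (2 * (∑' n, f n * Hs 2 n) + z4) =
      (∑' n, f n * Hs 2 n) + (∑' n, f n * Hs 2 n) + z4 := by ring
  rw [e]
  refine h3.congr_fun ?_
  intro p
  rcases lt_trichotomy p.1 p.2 with h | h | h
  · rw [if_neg (by omega), if_pos h, if_neg (by omega)]
    ring
  · rw [if_neg (by omega), if_neg (by omega), if_pos h]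
    ring
  · rw [if_pos h, if_neg (by omega), if_neg (by omega)]
    ring

theorem pf (m n : ℕ) : f m * f n = 1 / ((m:ℝ) + n + 2) ^ 2 * (f m + f n) +
    2 / ((m:ℝ) + n + 2) ^ 3 * (1 / ((m:ℝ) + 1) + 1 / ((n:ℝ) + 1)) := by
  unfold f
  have h1 : (m:ℝ) + 1 ≠ 0 := by positivity
  have h2 : (n:ℝ) + 1 ≠ 0 := by positivity
  have h3 : (m:ℝ) + n + 2 ≠ 0 := by positivity
  field_simp
  ring

theorem anti (N : ℕ) : ∑ p ∈ Finset.HasAntidiagonal.antidiagonal N, f p.1 * f p.2 =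
    2 * (f (N + 1) * Hs 2 (N + 1)) + 4 * (Hs 1 (N + 1) / (((N + 1 : ℕ):ℝ) + 1) ^ 3) := by
  have h1 : ∀ p ∈ Finset.HasAntidiagonal.antidiagonal N, f p.1 * f p.2 =
      f (N + 1) * (f p.1 + f p.2) + 2 / (((N + 1 : ℕ):ℝ) + 1) ^ 3 *
        (1 / ((p.1:ℝ) + 1) ^ 1 + 1 / ((p.2:ℝ) + 1) ^ 1) := by
    intro p hp
    rw [Finset.HasAntidiagonal.mem_antidiagonal] at hp
    rw [pf]
    have e : (p.1:ℝ) + p.2 + 2 = ((N + 1 : ℕ):ℝ) + 1 := by
      rw [← hp]
      push_cast
      ring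
    rw [e, pow_one, pow_one]
    rfl
  rw [Finset.sum_congr rfl h1, Finset.sum_add_distrib, ← Finset.mul_sum, ← Finset.mul_sum,
    Finset.sum_add_distrib, Finset.sum_add_distrib]
  have e1 : ∀ g : ℕ → ℝ, ∑ p ∈ Finset.HasAntidiagonal.antidiagonal N, g p.1 = ∑ m ∈ Finset.range (N + 1), g m := by
    intro g
    exact Finset.Nat.sum_antidiagonal_eq_sum_range_succ_mk (fun p : ℕ × ℕ => g p.1) N
  have e2 : ∀ g : ℕ → ℝ, ∑ p ∈ Finset.HasAntidiagonal.antidiagonal N, g p.2 = ∑ m ∈ Finset.range (N + 1), g m := by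
    intro g
    rw [← e1 g]
    exact Finset.Nat.sum_antidiagonal_swap (f := fun p : ℕ × ℕ => g p.1)
  rw [e1 f, e2 f, e1 (fun m => 1 / ((m:ℝ) + 1) ^ 1), e2 (fun m => 1 / ((m:ℝ) + 1) ^ 1)]
  rw [← Hs2_eq]
  change f (N + 1) * (Hs 2 (N + 1) + Hs 2 (N + 1)) + 2 / (((N + 1 : ℕ):ℝ) + 1) ^ 3 *
    (Hs 1 (N + 1) + Hs 1 (N + 1)) = _
  ring

theorem thm : EC237.ZE.G_MA := by
  unfold G_MA
  have hT := stuffle
  have h1 := summable_f.tsum_mul_tsum_eq_tsum_sum_antidiagonal summable_f summable_ff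
  have h2 : (∑' n, f n) * ∑' n, f n = ∑' p : ℕ × ℕ, f p.1 * f p.2 :=
    summable_f.tsum_mul_tsum summable_f summable_ff
  rw [h2, hT.tsum_eq] at h1
  simp_rw [anti] at h1
  have h3 : Summable (fun n : ℕ => 2 * (f n * Hs 2 n) + 4 * (Hs 1 n / ((n:ℝ) + 1) ^ 3)) :=
    (summable_22.mul_left 2).add (summable_31.mul_left 4)
  have h4 := h3.tsum_eq_zero_add
  have h5 : ∑' n : ℕ, (2 * (f n * Hs 2 n) + 4 * (Hs 1 n / ((n:ℝ) + 1) ^ 3)) =
      2 * (∑' n, f n * Hs 2 n) + 4 * z31 := by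
    rw [(summable_22.mul_left 2).tsum_add (summable_31.mul_left 4), tsum_mul_left, tsum_mul_left]
    rfl
  have h6 : 2 * (f 0 * Hs 2 0) + 4 * (Hs 1 0 / (((0:ℕ):ℝ) + 1) ^ 3) = 0 := by
    simp [Hs]
  rw [h5, h6, zero_add, ← h1] at h4
  linarith

end EC237.ZE.PkMA
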