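import Pool.Agent.Helper7.EC_E.GoalsR
import Pool.Agent.Helper80.EC_F.S5

/-! Packet CV of MP_ecc237 Part E (helper7): values at `ξ = 0`. -/

set_option autoImplicit false

open MeasureTheory Filter Topology Set

namespace EC237.ZE.PkCV

theorem z3 : HasSum (fun j : ℤ => 1 / (6 * (j:ℝ) + 1) ^ 3) (Real.sqrt 3 * Real.pi ^ 3 / 54) :=
  EC237.PF.PkZ3.thm EC237.PF.PkL3.thm

/-- `1/n²` on `ℤ` -/
noncomputable def g (n : ℤ) : ℝ := 1 / (n:ℝ) ^ 2

theorem g_neg (n : ℤ) : g (-n) = g n := by
  unfold g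
  push_cast
  rw [neg_sq]

theorem hasSum_g : HasSum g (Real.pi ^ 2 / 3) := by
  have h1 : HasSum (fun n : ℕ => g (n:ℤ)) (Real.pi ^ 2 / 6) := by
    have := hasSum_zeta_two
    refine this.congr_fun (fun n => ?_)
    unfold g
    push_cast
    rfl
  have h2 : HasSum (fun n : ℕ => g (-((n:ℤ) + 1))) (Real.pi ^ 2 / 6) := by
    have h3 := (hasSum_nat_add_iff' 1).2 h1
    have e : Real.pi ^ 2 / 6 - ∑ i ∈ Finset.range 1, g (i:ℤ) = Real.pi ^ 2 / 6 := by
      simp [g]
    rw [e] at h3
    refine h3.congr_fun (fun n => ?_)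
    rw [g_neg]
    push_cast
    rfl
  have h := HasSum.of_nat_of_neg_add_one h1 h2
  have e : Real.pi ^ 2 / 3 = Real.pi ^ 2 / 6 + Real.pi ^ 2 / 6 := by ring
  rw [e]
  exact h

/-- restriction to the multiples of `d` -/
theorem hasSum_dvd (d : ℤ) (hd : d ≠ 0) :
    HasSum (fun n : ℤ => if n % d = 0 then g n else 0) (Real.pi ^ 2 / 3 / (d:ℝ) ^ 2) := by
  have hinj : Function.Injective (fun n : ℤ => d * n) := fun a b h => by
    exact mul_left_cancel₀ hd h
  refine (hinj.hasSum_iff (f := fun n : ℤ => if n % d = 0 then g n else 0) ?_).1 ?_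
  · intro x hx
    rw [if_neg]
    intro h
    exact hx ⟨x / d, Int.mul_ediv_cancel' (Int.dvd_of_emod_eq_zero h)⟩
  · have h := hasSum_g.div_const ((d:ℝ) ^ 2)
    refine h.congr_fun (fun n => ?_)
    simp only [Function.comp]
    rw [if_pos (Int.mul_emod_right d n)]
    unfold g
    push_cast
    rw [mul_pow]
    have : (d:ℝ) ≠ 0 := by exact_mod_cast hd
    rw [div_div, mul_comm]

/-- passage to a progression -/
theorem prog (c : ℤ) (hc : 0 ≤ c) (hc6 : c < 6) (S : ℝ)
    (h : HasSum (fun n : ℤ => if n % 6 = c then g n else 0) S) :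
    HasSum (fun j : ℤ => g (6 * j + c)) S := by
  have hinj : Function.Injective (fun j : ℤ => 6 * j + c) := fun a b h => by
    have h' : 6 * a + c = 6 * b + c := h
    omega
  have h2 := (hinj.hasSum_iff (f := fun n : ℤ => if n % 6 = c then g n else 0) ?_).2 h
  · refine h2.congr_fun (fun j => ?_)
    simp only [Function.comp]
    rw [if_pos (by omega)]
  · intro x hx
    rw [if_neg]
    intro h
    exact hx ⟨x / 6, by
      show 6 * (x / 6) + c = x
      omega⟩

theorem three : HasSum (fun j : ℤ => g (6 * j + 3)) (Real.pi ^ 2 / 36) := by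
  refine prog 3 (by norm_num) (by norm_num) _ ?_
  have h := (hasSum_dvd 3 (by norm_num)).sub (hasSum_dvd 6 (by norm_num))
  have e : Real.pi ^ 2 / 36 = Real.pi ^ 2 / 3 / ((3:ℤ):ℝ) ^ 2 - Real.pi ^ 2 / 3 / ((6:ℤ):ℝ) ^ 2 := by
    push_cast
    ring
  rw [e]
  refine h.congr_fun (fun n => ?_)
  rcases (by omega : n % 6 = 0 ∨ n % 6 = 1 ∨ n % 6 = 2 ∨ n % 6 = 3 ∨ n % 6 = 4 ∨ n % 6 = 5) with
    h | h | h | h | h | h
  · rw [if_neg (by omega), if_pos (by omega), if_pos (by omega), sub_self]
  · rw [if_neg (by omega), if_neg (by omega), if_neg (by omega), sub_self]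
  · rw [if_neg (by omega), if_neg (by omega), if_neg (by omega), sub_self]
  · rw [if_pos (by omega), if_pos (by omega), if_neg (by omega), sub_zero]
  · rw [if_neg (by omega), if_neg (by omega), if_neg (by omega), sub_self]
  · rw [if_neg (by omega), if_neg (by omega), if_neg (by omega), sub_self]

theorem summable_cl (c : ℤ) : Summable (fun n : ℤ => if n % 6 = c then g n else 0) := by
  refine Summable.of_nonneg_of_le (fun n => ?_) (fun n => ?_) hasSum_g.summable
  · split_ifs
    · unfold g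
      positivity
    · exact le_rfl
  · split_ifs
    · exact le_rfl
    · unfold g
      positivity

theorem one_five : HasSum (fun n : ℤ => if n % 6 = 1 then g n else 0) (Real.pi ^ 2 / 9) ∧
    HasSum (fun n : ℤ => if n % 6 = 5 then g n else 0) (Real.pi ^ 2 / 9) := by
  have h1 := (summable_cl 1).hasSum
  set s : ℝ := ∑' n : ℤ, if n % 6 = 1 then g n else 0 with hs
  have h5 : HasSum (fun n : ℤ => if n % 6 = 5 then g n else 0) s := by
    have h := (Equiv.neg ℤ).hasSum_iff.2 h1
    refine h.congr_fun (fun n => ?_)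
    simp only [Function.comp, Equiv.neg_apply, g_neg]
    by_cases hn : n % 6 = 5
    · rw [if_pos hn, if_pos (by omega)]
    · rw [if_neg hn, if_neg (by omega)]
  have hA := h1.add h5
  have hB := (((hasSum_g.sub (hasSum_dvd 2 (by norm_num))).sub (hasSum_dvd 3 (by norm_num))).add
    (hasSum_dvd 6 (by norm_num)))
  have hB' : HasSum (fun n : ℤ => (if n % 6 = 1 then g n else 0) + if n % 6 = 5 then g n else 0)
      (Real.pi ^ 2 / 3 - Real.pi ^ 2 / 3 / ((2:ℤ):ℝ) ^ 2 - Real.pi ^ 2 / 3 / ((3:ℤ):ℝ) ^ 2 +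
        Real.pi ^ 2 / 3 / ((6:ℤ):ℝ) ^ 2) := by
    refine hB.congr_fun (fun n => ?_)
    rcases (by omega : n % 6 = 0 ∨ n % 6 = 1 ∨ n % 6 = 2 ∨ n % 6 = 3 ∨ n % 6 = 4 ∨ n % 6 = 5) with
      h | h | h | h | h | h
    · rw [if_neg (by omega), if_neg (by omega), if_pos (by omega), if_pos (by omega),
        if_pos (by omega)]
      ring
    · rw [if_pos (by omega), if_neg (by omega), if_neg (by omega), if_neg (by omega),
        if_neg (by omega)]
      ring
    · rw [if_neg (by omega), if_neg (by omega), if_pos (by omega), if_neg (by omega),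
        if_neg (by omega)]
      ring
    · rw [if_neg (by omega), if_neg (by omega), if_neg (by omega), if_pos (by omega),
        if_neg (by omega)]
      ring
    · rw [if_neg (by omega), if_neg (by omega), if_pos (by omega), if_neg (by omega),
        if_neg (by omega)]
      ring
    · rw [if_neg (by omega), if_pos (by omega), if_neg (by omega), if_neg (by omega),
        if_neg (by omega)]
      ring
  have he := hA.unique hB'
  push_cast at he
  have hsv : s = Real.pi ^ 2 / 9 := by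
    linarith
  rw [hsv] at h1 h5
  exact ⟨h1, h5⟩

theorem cast_sum (r : ℕ) (hr : r ≠ 1) (c : ℤ) (S : ℝ)
    (h : HasSum (fun j : ℤ => 1 / (6 * (j:ℝ) + c) ^ r) S) : Sf r c 0 = (S:ℂ) := by
  unfold Sf
  rw [if_neg hr]
  have h2 := Complex.hasSum_ofReal.2 h
  rw [← h2.tsum_eq]
  refine tsum_congr (fun j => ?_)
  push_cast
  rw [add_zero]

theorem cot_val (c : ℤ) (x : ℝ) (hx : Real.pi * c / 6 = x) (v : ℝ)
    (hv : Real.pi / 6 * (Real.cos x / Real.sin x) = v) : Sf 1 c 0 = (v:ℂ) := by
  unfold Sf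
  rw [if_pos rfl]
  have e : (Real.pi:ℂ) * ((c:ℂ) + 0) / 6 = ((x:ℝ):ℂ) := by
    rw [← hx]
    push_cast
    ring
  rw [e, Complex.cot_eq_cos_div_sin, ← Complex.ofReal_cos, ← Complex.ofReal_sin, ← hv]
  push_cast
  ring

theorem thm : EC237.ZE.G_CV := by
  have h3 : Real.sqrt 3 ^ 2 = 3 := Real.sq_sqrt (by norm_num)
  have h3p : 0 < Real.sqrt 3 := Real.sqrt_pos.mpr (by norm_num)
  refine ⟨?_, ?_, ?_, ?_, ?_, ?_, ?_, ?_, ?_⟩
  · refine cot_val 1 (Real.pi / 6) (by push_cast; ring) _ ?_
    rw [Real.cos_pi_div_six, Real.sin_pi_div_six]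
    unfold w1
    ring
  · have := cot_val 3 (Real.pi / 2) (by push_cast; ring) 0 (by rw [Real.cos_pi_div_two]; simp)
    rw [this]
    simp
  · have := cot_val 5 (Real.pi - Real.pi / 6) (by push_cast; ring) (-w1) (by
      rw [Real.cos_pi_sub, Real.sin_pi_sub, Real.cos_pi_div_six, Real.sin_pi_div_six]
      unfold w1
      ring)
    rw [this]
    push_cast
    ring
  · refine cot_val 2 (Real.pi / 3) (by push_cast; ring) _ ?_
    rw [Real.cos_pi_div_three, Real.sin_pi_div_three]
    field_simp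
  · refine cast_sum 2 (by norm_num) 1 _ ?_
    refine (prog 1 (by norm_num) (by norm_num) _ one_five.1).congr_fun (fun j => ?_)
    unfold g
    push_cast
    rfl
  · refine cast_sum 2 (by norm_num) 3 _ ?_
    refine three.congr_fun (fun j => ?_)
    unfold g
    push_cast
    rfl
  · refine cast_sum 2 (by norm_num) 5 _ ?_
    refine (prog 5 (by norm_num) (by norm_num) _ one_five.2).congr_fun (fun j => ?_)
    unfold g
    push_cast
    rfl
  · refine cast_sum 3 (by norm_num) 1 _ ?_
    unfold Z13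
    refine z3.congr_fun (fun j => ?_)
    push_cast
    rfl
  · have h := cast_sum 3 (by norm_num) 5 (-Z13) (by
      have h := (Equiv.subLeft (-1 : ℤ)).hasSum_iff.2 z3.neg
      unfold Z13
      refine h.congr_fun (fun j => ?_)
      simp only [Function.comp, Equiv.subLeft_apply]
      push_cast
      have e : 6 * (-1 - (j:ℝ)) + 1 = -(6 * j + 5) := by ring
      rw [e]
      have e2 : (-(6 * (j:ℝ) + 5)) ^ 3 = -((6 * (j:ℝ) + 5) ^ 3) := by ring
      rw [e2, div_neg, neg_neg])
    rw [h]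
    push_cast
    ring

end EC237.ZE.PkCV
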